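import Pool.Agent.helper17.SG.SpecB

/-!
# Project sg: (MP_2b8aea_gt): B14, infinite, countable, finite sets
-/

set_option autoImplicit false

open MeasureTheory Set Metric Filter Topology
open scoped ENNReal NNReal ComplexConjugate

namespace Pool.Agent.SG

theorem B14 (h1 : B01_stmt) (h3 : B03_stmt) : B14_stmt := by
  intro Γ _ A
  obtain ⟨-, -, hn, -, hm, -, -, -, -, -⟩ := h1 Γ A
  obtain ⟨-, -, -, hp, -, -, -, -, -, -, -, -⟩ := h3 Γ A
  refine ⟨fun hne => ?_, fun hd => ?_, fun hd τ hτ => ?_⟩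
  · by_contra hfin
    rw [not_infinite_iff_finite] at hfin
    classical
    haveI : Fintype Γ := Fintype.ofFinite Γ
    obtain ⟨γ, ζ, hζ, hγ⟩ := hne (Finset.univ.image fun γ => A.act γ 1)
      ⟨A.act 1 1, Finset.mem_image_of_mem _ (Finset.mem_univ _)⟩ (by
        intro ζ hζ
        obtain ⟨γ, -, rfl⟩ := Finset.mem_image.1 hζ
        exact hn γ 1 (by simp))
    obtain ⟨δ, -, rfl⟩ := Finset.mem_image.1 hζ
    apply hγ
    rw [← hm γ δ 1 (by simp)]
    exact Finset.mem_image_of_mem _ (Finset.mem_univ _)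
  · have hU : (univ : Set Γ) = ⋃ n : ℕ, {γ | ‖A.act γ 0‖ ≤ 1 - 1 / ((n : ℝ) + 1)} := by
      symm
      rw [eq_univ_iff_forall]
      intro γ
      have h0 : ‖A.act γ 0‖ < 1 := hp γ
      obtain ⟨n, hn⟩ := exists_nat_one_div_lt (sub_pos.2 h0)
      rw [mem_iUnion]
      refine ⟨n, ?_⟩
      rw [mem_setOf_eq]
      linarith
    have hc : (univ : Set Γ).Countable := by
      rw [hU]
      refine countable_iUnion fun n => (hd _ ?_).countable
      have : (0 : ℝ) < 1 / ((n : ℝ) + 1) := by positivity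
      linarith
    exact countable_univ_iff.1 hc
  · refine (hd (Real.sqrt (1 - τ)) ?_).subset ?_
    · rw [Real.sqrt_lt' one_pos]
      linarith
    · intro γ hγ
      rw [mem_setOf_eq] at hγ ⊢
      apply Real.le_sqrt_of_sq_le
      have h2 : A.kk γ = 1 - ‖A.act γ 0‖ ^ 2 := rfl
      rw [h2] at hγ
      linarith

end Pool.Agent.SG
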