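import Pool.Agent.helper3.SG.SpecN

/-!
# Project sg: (MP_2b8aea_gt): Z04, bounded representations
-/

set_option autoImplicit false

open MeasureTheory Set Metric Filter Topology
open scoped ENNReal NNReal ComplexConjugate commutatorElement

namespace Pool.Agent.SG

/-- the norm of `a 1`. -/
theorem Z04_one (h2 : S02_stmt) {Γ : Type} [Group Γ] (A : DiscRep Γ) : ‖A.a 1‖ = 1 := by
  obtain ⟨g1, -, -, -, -, g6, g7, -⟩ := h2 Γ A
  have h3 := g7 1 1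
  have h4 := g6 1
  have h5 := g1 1
  have h6 : ‖1 - conj (A.pt 1) * A.pt 1‖ = A.kk 1 := by
    rw [Complex.conj_mul']
    have h7 : (1 : ℂ) - (‖A.pt 1‖ : ℂ) ^ 2 = ((A.kk 1 : ℝ) : ℂ) := by
      rw [DiscRep.kk]
      push_cast
      rfl
    rw [h7, Complex.norm_real, Real.norm_of_nonneg]
    rw [h4]
    positivity
  rw [h6, h4, inv_one, mul_one] at h3
  have h7 : ‖A.a 1‖ ≠ 0 := by positivity
  field_simp at h3
  exact h3

/-- bounds of the coefficients of all elements from the bounds on the support. -/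
theorem Z04_bound (h2 : S02_stmt) {Γ : Type} [Group Γ] (W : Walk Γ) (D : ℝ) (g : Γ) :
    ∃ K : ℝ, ∀ A : DiscRep Γ, (∀ s ∈ W.S, ‖A.a s‖ ≤ D) → ‖A.a g‖ ≤ K := by
  have hg : g ∈ Submonoid.closure (W.S : Set Γ) := by
    rw [W.gen]
    exact Submonoid.mem_top g
  induction hg using Submonoid.closure_induction with
  | mem s hs => exact ⟨D, fun A hA => hA s hs⟩
  | one => exact ⟨1, fun A _ => (Z04_one h2 A).le⟩
  | mul x y _ _ hx hy =>
    obtain ⟨K1, h3⟩ := hx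
    obtain ⟨K2, h4⟩ := hy
    refine ⟨2 * K1 * K2, fun A hA => ?_⟩
    obtain ⟨g1, -, g3, -, -, -, -, -⟩ := h2 Γ A
    have h5 := h3 A hA
    have h6 := h4 A hA
    have h7 := g1 x
    calc ‖A.a (x * y)‖ ≤ 2 * ‖A.a x‖ * ‖A.a y‖ := g3 x y
      _ ≤ 2 * K1 * K2 := by
          refine mul_le_mul (by linarith) h6 (norm_nonneg _) (by linarith)

theorem Z04_kk (h2 : S02_stmt) {Γ : Type} [Group Γ] (A : DiscRep Γ) (τ : ℝ) (hτ : 0 < τ) :
    {γ | τ ≤ A.kk γ} ⊆ {g | ‖A.a g‖ ≤ 1 / Real.sqrt τ} := by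
  intro γ hγ
  obtain ⟨g1, -, -, -, -, g6, -, -⟩ := h2 Γ A
  have h3 : τ ≤ A.kk γ := hγ
  rw [g6] at h3
  have h4 : 0 < ‖A.a γ‖ := lt_of_lt_of_le one_pos (g1 γ)
  have h5 : 0 < Real.sqrt τ := Real.sqrt_pos.2 hτ
  show ‖A.a γ‖ ≤ 1 / Real.sqrt τ
  rw [le_div_iff₀ (by positivity)] at h3
  rw [le_div_iff₀ h5]
  have h6 : (‖A.a γ‖ * Real.sqrt τ) ^ 2 ≤ 1 := by
    rw [mul_pow, Real.sq_sqrt hτ.le]
    linarith
  have h7 : 0 ≤ ‖A.a γ‖ * Real.sqrt τ := by positivity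
  nlinarith

theorem Z04 (h2 : S02_stmt) (h7 : S07_stmt) (h11 : S11_stmt) (h12 : S12_stmt) (h14 : S14_stmt)
    (h15 : S15_stmt) (h16 : S16_stmt) (hZ : Z01_stmt) (hM3 : M03_stmt) (hM4 : M04_stmt)
    (hB : B14_stmt) (hD11 : D11_stmt) (hD12 : D12_stmt) : Z04_stmt := by
  intro Γ _ hTF hNA hφ W U Ak νk D₁ hdisc hstat hL
  obtain ⟨D, hD⟩ : ∃ D : ℝ, D = Real.exp (D₁ / 2) := ⟨_, rfl⟩
  have hE0 : ∀ᶠ k in (U : Filter ℕ), ∀ s ∈ W.S, ‖(Ak k).a s‖ ≤ D := by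
    filter_upwards [hL] with k hk s hs
    obtain ⟨g1, -⟩ := h2 Γ (Ak k)
    have h3 : 2 * Real.log ‖(Ak k).a s‖ ≤ D₁ := hk s hs
    have h4 : 0 < ‖(Ak k).a s‖ := lt_of_lt_of_le one_pos (g1 s)
    rw [hD, ← Real.log_le_iff_le_exp h4]
    linarith
  obtain ⟨c, hc, hc1⟩ := h11 Γ hTF hNA W D
  have hE1 : ∀ᶠ k in (U : Filter ℕ), ∀ g, g ≠ 1 → c ≤ (Ak k).dev g := by
    filter_upwards [hE0] with k hk g hg
    exact hc1 (Ak k) (hdisc k) hk g hg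
  choose K hK using Z04_bound h2 W D
  obtain ⟨A, hA⟩ := h14 Γ U Ak K (fun g => by
    filter_upwards [hE0] with k hk
    exact hK g (Ak k) hk)
  have hdev : ∀ g, g ≠ 1 → c ≤ A.dev g := by
    intro g hg
    have ht : Tendsto (fun k => (Ak k).dev g) U (𝓝 (A.dev g)) := by
      have ha := (hA g).1
      have hb := (hA g).2
      unfold DiscRep.dev
      exact ((ha.sub_const 1).norm.min (ha.add_const 1).norm).add hb.norm
    refine ge_of_tendsto ht ?_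
    filter_upwards [hE1] with k hk
    exact hk g hg
  have hAd : A.Discrete := by
    obtain ⟨-, -, -, -, -, -, -, g8⟩ := h2 Γ A
    refine g8.2 fun K' => ?_
    obtain ⟨N, hN⟩ := h12 c K' hc
    exact (hN Γ A hdev).1
  have hne : A.NonEl := by
    intro Z hZ hZ1
    have h3 := h7 Γ hTF hNA A hAd (Z : Set ℂ) Z.finite_toSet hZ (fun ζ hζ => by
      rw [circ, mem_sphere_zero_iff_norm]
      exact hZ1 ζ hζ)
    push Not at h3
    obtain ⟨γ, ζ, hζ, hγ⟩ := h3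
    exact ⟨γ, ζ, hζ, hγ⟩
  haveI hinf : Infinite Γ := (hB Γ A).1 hne
  obtain ⟨ν, hν, hconv⟩ := h15 Γ W U Ak A νk (fun g => (hA g).1) (fun g => (hA g).2) hstat
  have hstd : StdD A W ν := ⟨hν, hAd, hne⟩
  have hsing := hZ Γ A W ν hstd hφ
  haveI hp : IsProbabilityMeasure ν := hν.prob
  obtain ⟨r₀, hr₀, hr₀b⟩ := hM4 ν hν.supp (hM3 Γ A W ν hν hne) (1 / 16) (by simp)
  obtain ⟨ρ₀, hρ₀⟩ : ∃ ρ₀ : ℝ, ρ₀ = min r₀ 1 := ⟨_, rfl⟩
  have hρ0 : 0 < ρ₀ := by rw [hρ₀]; exact lt_min hr₀ one_pos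
  have hρ1 : ρ₀ ≤ 1 := by rw [hρ₀]; exact min_le_right _ _
  obtain ⟨-, s2, s3⟩ := h16 U νk ν (fun k => ⟨(hstat k).prob, (hstat k).supp⟩) hp hν.supp hconv
  have hE2 : ∀ᶠ k in (U : Filter ℕ), ∀ x ∈ circ, νk k (closedBall x (ρ₀ / 2)) ≤ 1 / 8 := by
    have h3 := s3 ρ₀ (ρ₀ / 2) (1 / 16) (1 / 16) (by positivity) (by linarith) (by simp)
      (fun x _ => (measure_mono (closedBall_subset_closedBall (by
        rw [hρ₀]; exact min_le_left _ _))).trans (hr₀b x))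
    filter_upwards [h3] with k hk x hx
    refine (hk x hx).trans (le_of_eq ?_)
    have h4 : (1 / 16 : ℝ≥0∞) + 1 / 16 = 2 * (1 / 16) := by ring
    rw [h4, show (16 : ℝ≥0∞) = 2 * 8 by norm_num, one_div, one_div,
      ENNReal.mul_inv (by simp) (by simp), ← mul_assoc,
      ENNReal.mul_inv_cancel (by simp) (by simp), one_mul]
  obtain ⟨κ, hκ⟩ : ∃ κ : ℝ, κ = Real.exp (-D₁) := ⟨_, rfl⟩
  have hκ0 : 0 < κ := by rw [hκ]; exact Real.exp_pos _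
  have hE3 : ∀ᶠ k in (U : Filter ℕ), ∀ s ∈ W.S, κ ≤ (Ak k).kk s := by
    filter_upwards [hE0] with k hk s hs
    obtain ⟨g1, -, -, -, -, g6, -, -⟩ := h2 Γ (Ak k)
    have h4 : 0 < ‖(Ak k).a s‖ := lt_of_lt_of_le one_pos (g1 s)
    have h5 : ‖(Ak k).a s‖ ^ 2 ≤ Real.exp D₁ := by
      have h6 : Real.exp D₁ = D ^ 2 := by
        rw [hD, ← Real.exp_nat_mul]
        congr 1
        push_cast
        ring
      rw [h6]
      exact pow_le_pow_left₀ h4.le (hk s hs) 2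
    rw [g6, hκ, Real.exp_neg, ← one_div]
    exact one_div_le_one_div_of_le (by positivity) h5
  choose N hN using fun K' => h12 c K' hc
  obtain ⟨ε₀, hε₀, hδ⟩ := hD11 κ (ρ₀ / 2) (fun τ => N (1 / Real.sqrt τ)) hκ0 (by linarith)
    (by linarith)
  obtain ⟨m, cc, r, hr, hrs, hrν⟩ := hD12 ν hp hν.supp hsing ε₀ hε₀
  obtain ⟨δ, hδ0, hδ1, hδ2⟩ := hδ m
  refine ⟨δ, hδ0, hδ1, ?_⟩
  have hE4 : ∀ᶠ k in (U : Filter ℕ), 7 / 8 ≤ νk k (⋃ l, closedBall (cc l) (r l)) := by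
    have h3 := s2 (⋃ l, ball (cc l) (r l)) (isOpen_iUnion fun l => isOpen_ball)
      (ν (⋃ l, ball (cc l) (r l)) - 7 / 8) (tsub_pos_of_lt hrν)
    filter_upwards [h3] with k hk
    have h4 : ν (⋃ l, ball (cc l) (r l)) = 7 / 8 + (ν (⋃ l, ball (cc l) (r l)) - 7 / 8) :=
      (add_tsub_cancel_of_le hrν.le).symm
    have h5 : (7 / 8 : ℝ≥0∞) ≤ νk k (⋃ l, ball (cc l) (r l)) := by
      have h6 : 7 / 8 + (ν (⋃ l, ball (cc l) (r l)) - 7 / 8) ≤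
          νk k (⋃ l, ball (cc l) (r l)) + (ν (⋃ l, ball (cc l) (r l)) - 7 / 8) := by
        rw [← h4]
        exact hk
      exact ENNReal.le_of_add_le_add_right
        (ne_top_of_le_ne_top (measure_ne_top ν _) tsub_le_self) h6
    exact h5.trans (measure_mono (iUnion_mono fun l => ball_subset_closedBall))
  filter_upwards [hE1, hE2, hE3, hE4] with k k1 k2 k3 k4
  obtain ⟨B, hBm, hB1, hB2⟩ := hδ2 Γ (Ak k) W (νk k) cc r (hstat k) (hdisc k) k3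
    (fun τ hτ => (Set.ncard_le_ncard (Z04_kk h2 (Ak k) τ hτ)
      (hN (1 / Real.sqrt τ) Γ (Ak k) k1).1).trans (hN (1 / Real.sqrt τ) Γ (Ak k) k1).2)
    k2 (fun l => (hr l).le) hrs k4
  refine ⟨B, hBm, lt_of_lt_of_le (by simp) hB1, hB2⟩

end Pool.Agent.SG
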