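import Pool.Agent.helper80.SG.Spec

/-!
# Project sg: (MP_b5a345_ag): DEC, decomposition in a colour of degree one
-/

set_option autoImplicit false
set_option linter.unusedSectionVars false

namespace Pool.Agent.SG

open MvPolynomial Module Pool.Agent.SV

variable {ι κ : Type} [Fintype ι] [DecidableEq ι] [Fintype κ] [DecidableEq κ]

theorem DEC_low (d : κ → ℕ) (j : κ) (hj : d j ≤ 1) : low d j j = 0 := by
  simp only [low, Function.update_self]
  omega

theorem DEC_low_le (d : κ → ℕ) (k j : κ) : low d k j ≤ d j := by
  unfold low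
  by_cases h : j = k
  · rw [h, Function.update_self]
    omega
  · rw [Function.update_of_ne h]

theorem DEC_vars (c : ι → κ) (d : κ → ℕ) (j : κ) (hj : d j = 0) (f : MvPolynomial ι ℂ)
    (hf : f ∈ Sec c Finset.univ d) (i : ι) (hi : i ∈ f.vars) : c i ≠ j := by
  intro hij
  rw [mem_vars] at hi
  obtain ⟨m, hm, him⟩ := hi
  have h1 := (mem_Sec.1 hf m (mem_support_iff.1 hm)).2 j
  rw [hj, Finset.sum_eq_zero_iff] at h1
  exact (Finsupp.mem_support_iff.1 him) (h1 i (by simp [hij]))

theorem DEC_eval (c : ι → κ) (d : κ → ℕ) (j : κ) (hj : d j = 0) (f : MvPolynomial ι ℂ)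
    (hf : f ∈ Sec c Finset.univ d) (u y : ι → ℂ) : eval (lft c j u y) f = eval y f := by
  refine eval₂Hom_congr' rfl (fun i hi _ => ?_) rfl
  have h1 := DEC_vars c d j hj f hf i hi
  simp only [lft, if_neg h1]

theorem DEC (hEUL : EUL_stmt) (hHOM : HOM_stmt) : DEC_stmt := by
  intro ι κ _ _ _ _ c d j hdj
  refine ⟨fun F hF => ?_, fun f hf => ?_⟩
  · obtain ⟨-, -, -, h4, -⟩ := hHOM c Finset.univ d F hF
    have hdec : F = ∑ v ∈ Finset.univ.filter (fun v => c v = j), X v * pderiv v F := by
      refine MvPolynomial.funext fun x => ?_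
      have h5 := hEUL c Finset.univ d F hF j x
      rw [hdj, Nat.cast_one, one_mul] at h5
      rw [map_sum, ← h5]
      refine Finset.sum_congr rfl fun v _ => ?_
      rw [map_mul, eval_X]
    refine ⟨fun v hv => ?_, hdec, fun i hi y => ?_⟩
    · rcases h4 v with h5 | h5
      · rw [hv] at h5
        exact h5
      · rw [h5]
        exact Submodule.zero_mem _
    · have h5 : pderiv i F = ∑ v ∈ Finset.univ.filter (fun v => c v = j),
          X v * pderiv i (pderiv v F) := by
        conv_lhs => rw [hdec]
        rw [map_sum]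
        refine Finset.sum_congr rfl fun v hv => ?_
        have hv' : c v = j := by simpa using hv
        have hiv : v ≠ i := by
          intro h
          rw [h] at hv'
          exact hi hv'
        rw [pderiv_mul, pderiv_X_of_ne hiv, zero_mul, zero_add]
      rw [h5, map_sum]
      refine Finset.sum_congr rfl fun v _ => ?_
      rw [map_mul, eval_X]
  · have h0 : low d j j = 0 := DEC_low d j hdj.le
    obtain ⟨-, -, -, h4, -⟩ := hHOM c Finset.univ (low d j) f hf
    refine ⟨fun u y => DEC_eval c (low d j) j h0 f hf u y, fun i hi => ?_, fun i u y => ?_⟩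
    · refine pderiv_eq_zero_of_notMem_vars fun h => ?_
      exact DEC_vars c (low d j) j h0 f hf i h hi
    · rcases h4 i with h5 | h5
      · refine DEC_eval c (low (low d j) (c i)) j ?_ _ h5 u y
        have h6 := DEC_low_le (low d j) (c i) j
        omega
      · rw [h5, map_zero, map_zero]

end Pool.Agent.SG
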